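import Mathlib

/-! Slices, almost preserved extreme points and the projective tensor square. -/

set_option autoImplicit false

namespace Pool.Agent.P.MP_3d49e4_an

open scoped TensorProduct

/-- The slice `S(C, f, α)`. -/
def slice {X : Type} [NormedAddCommGroup X] [NormedSpace ℝ X] (C : Set X) (f : StrongDual ℝ X)
    (α : ℝ) : Set X :=
  {x ∈ C | sSup (f '' C) - α < f x}

/-- `x₀` is an almost preserved extreme point of `C`: it lies in `C`, and every relatively weakly
open subset of `C` containing `x₀` contains a non-empty slice of `C`. -/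
def IsAPEP {X : Type} [NormedAddCommGroup X] [NormedSpace ℝ X] (C : Set X) (x₀ : X) : Prop :=
  x₀ ∈ C ∧ ∀ U : Set (WeakSpace ℝ X), IsOpen U → toWeakSpace ℝ X x₀ ∈ U →
    ∃ (f : StrongDual ℝ X) (α : ℝ), 0 < α ∧ (slice C f α).Nonempty ∧
      slice C f α ⊆ {x ∈ C | toWeakSpace ℝ X x ∈ U}

/-- The projective tensor product of `X` with itself: the completion of the algebraic tensor
product of two copies of `X` for Mathlib's projective seminorm. -/
abbrev ProjSq (X : Type) [NormedAddCommGroup X] [NormedSpace ℝ X] : Type :=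
  UniformSpace.Completion (⨂[ℝ] _ : Fin 2, X)

/-- The elementary tensor `x ⊗ y`. -/
noncomputable def tens {X : Type} [NormedAddCommGroup X] [NormedSpace ℝ X] (x y : X) :
    ProjSq X :=
  ((⨂ₜ[ℝ] i, ![x, y] i : ⨂[ℝ] _ : Fin 2, X) : ProjSq X)

end Pool.Agent.P.MP_3d49e4_an
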