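import Pool.Agent.P.MP_3d49e4_an.Space

/-! The tensor of the root with itself is not an almost preserved extreme point. -/

set_option autoImplicit false

namespace Pool.Agent.P.MP_3d49e4_an

open Node
open scoped TensorProduct

section General

variable {X : Type} [NormedAddCommGroup X] [NormedSpace ℝ X]

noncomputable def tm : ContinuousMultilinearMap ℝ (fun _ : Fin 2 => X) (ProjSq X) :=
  (UniformSpace.Completion.toComplL (𝕜 := ℝ)).compContinuousMultilinearMap
    (PiTensorProduct.tprodL ℝ)

theorem tm_apply (m : Fin 2 → X) : tm m = tens (m 0) (m 1) := by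
  have : m = ![m 0, m 1] := by ext i; fin_cases i <;> rfl
  conv_lhs => rw [this]
  rfl

noncomputable def tensL (y : X) : X →L[ℝ] ProjSq X := tm.toContinuousLinearMap ![0, y] 0

noncomputable def tensR (x : X) : X →L[ℝ] ProjSq X := tm.toContinuousLinearMap ![x, 0] 1

theorem tensL_apply (x y : X) : tensL y x = tens x y := by
  simp [tensL, tm_apply]

theorem tensR_apply (x y : X) : tensR x y = tens x y := by
  simp [tensR, tm_apply]

theorem norm_tens_le (x y : X) : ‖tens x y‖ ≤ ‖x‖ * ‖y‖ := by
  unfold tens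
  rw [UniformSpace.Completion.norm_coe]
  refine (PiTensorProduct.projectiveSeminorm_tprod_le _).trans ?_
  simp

noncomputable def bil (B : X →L[ℝ] X →L[ℝ] ℝ) :
    ContinuousMultilinearMap ℝ (fun _ : Fin 2 => X) ℝ where
  toFun m := B (m 0) (m 1)
  map_update_add' := by
    intro inst m i x y
    have : inst = instDecidableEqFin 2 := Subsingleton.elim _ _
    subst this
    fin_cases i <;> simp
  map_update_smul' := by
    intro inst m i c x
    have : inst = instDecidableEqFin 2 := Subsingleton.elim _ _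
    subst this
    fin_cases i <;> simp
  cont := by fun_prop

noncomputable def tl (B : X →L[ℝ] X →L[ℝ] ℝ) : ProjSq X →L[ℝ] ℝ :=
  (PiTensorProduct.liftEquiv ℝ (fun _ : Fin 2 => X) ℝ (bil B)).fromCompletion

theorem tl_tens (B : X →L[ℝ] X →L[ℝ] ℝ) (x y : X) : tl B (tens x y) = B x y := by
  unfold tl tens
  rw [ContinuousLinearMap.fromCompletion_apply_coe]
  simp [bil]

theorem abs_le_of_tens (G : ProjSq X →L[ℝ] ℝ) {c : ℝ} (hc : 0 ≤ c)
    (h : ∀ x y, |G (tens x y)| ≤ c * ‖x‖ * ‖y‖) (z : ProjSq X) : |G z| ≤ c * ‖z‖ := by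
  induction z using UniformSpace.Completion.induction_on with
  | hp => exact isClosed_le (by fun_prop) (by fun_prop)
  | ih z =>
    let g : ContinuousMultilinearMap ℝ (fun _ : Fin 2 => X) ℝ := G.compContinuousMultilinearMap tm
    have hg : ‖g‖ ≤ c := by
      refine ContinuousMultilinearMap.opNorm_le_bound hc fun m => ?_
      have := h (m 0) (m 1)
      rw [← tm_apply] at this
      simpa [g, mul_assoc] using this
    have h1 : PiTensorProduct.lift g.toMultilinearMap =
        (G.comp (UniformSpace.Completion.toComplL (𝕜 := ℝ))).toLinearMap := by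
      ext m
      simp [g, tm]
    have h2 := PiTensorProduct.norm_eval_le_projectiveSeminorm g z
    rw [h1] at h2
    rw [UniformSpace.Completion.norm_coe]
    exact h2.trans (mul_le_mul_of_nonneg_right hg (norm_nonneg _))

end General

theorem not_apep (K : Set (ProjSq XX)) (hK1 : ∀ x y, ‖x‖ ≤ 1 → ‖y‖ ≤ 1 → tens x y ∈ K)
    (hK2 : ∀ z ∈ K, ‖z‖ ≤ 1) : ¬ IsAPEP K (tens (delta root) (delta root)) := by
  rintro ⟨h0, h⟩
  obtain ⟨T, hT⟩ := exists_T
  let ρ : ProjSq XX →L[ℝ] ℝ := tl (one.smulRight one)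
  have hρ : ∀ x y, ρ (tens x y) = one x * one y := fun x y => by simp [ρ, tl_tens]
  let τ : ProjSq XX →L[ℝ] ℝ := tl T
  have hτ : ∀ s t, τ (tens (delta s) (delta t)) = M s t := fun s t => by simp [τ, tl_tens, hT]
  have hc : ∀ φ : ProjSq XX →L[ℝ] ℝ,
      Continuous fun w : WeakSpace ℝ (ProjSq XX) => φ ((toWeakSpace ℝ _).symm w) := fun φ =>
    WeakBilin.eval_continuous (topDualPairing ℝ (ProjSq XX)).flip φ
  obtain ⟨G, α, hα, -, hS⟩ := h
    {w | 0 < ρ ((toWeakSpace ℝ _).symm w) ∧ |τ ((toWeakSpace ℝ _).symm w)| < 1}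
    ((isOpen_lt continuous_const (hc ρ)).inter (isOpen_lt (hc τ).abs continuous_const))
    (by simp [hρ, hτ, one_delta, M_root])
  set σ := sSup (G '' K) with hσ
  have hS' : ∀ z ∈ K, σ - α < G z → 0 < ρ z ∧ |τ z| < 1 := fun z hz hz' => (hS ⟨hz, hz'⟩).2
  have hbdd : BddAbove (G '' K) := ⟨‖G‖, by
    rintro _ ⟨z, hz, rfl⟩
    exact (le_abs_self _).trans
      ((G.le_opNorm z).trans (mul_le_of_le_one_right (norm_nonneg _) (hK2 z hz)))⟩
  have hle : ∀ z ∈ K, G z ≤ σ := fun z hz => le_csSup hbdd ⟨z, hz, rfl⟩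
  obtain ⟨g, g', hg, hg', hbig⟩ : ∃ g g', Gen g ∧ Gen g' ∧ σ - α / 4 < |G (tens g g')| := by
    by_contra hh
    push Not at hh
    have hr : Gen (delta root) := Or.inl ⟨root, rfl⟩
    have hc0 : 0 ≤ σ - α / 4 := (abs_nonneg _).trans (hh _ _ hr hr)
    have h1 : ∀ x g', Gen g' → |G (tens x g')| ≤ (σ - α / 4) * ‖x‖ := by
      intro x g' hg'
      have := polar (φ := G.comp (tensL g')) (c := σ - α / 4)
        (fun g hg => by simpa [tensL_apply] using hh g g' hg hg') x
      simpa [tensL_apply] using this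
    have h2 : ∀ x y, |G (tens x y)| ≤ (σ - α / 4) * ‖x‖ * ‖y‖ := by
      intro x y
      have := polar (φ := G.comp (tensR x)) (c := (σ - α / 4) * ‖x‖)
        (fun g hg => by simpa [tensR_apply] using h1 x g hg) y
      simpa [tensR_apply] using this
    have h3 : σ ≤ σ - α / 4 := by
      refine csSup_le ⟨_, _, h0, rfl⟩ ?_
      rintro _ ⟨z, hz, rfl⟩
      exact (le_abs_self _).trans ((abs_le_of_tens G hc0 h2 z).trans
        (mul_le_of_le_one_right hc0 (hK2 z hz)))
    linarith
  have hneg : ∀ x y : XX, tens (-x) y = -tens x y := fun x y => by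
    rw [← tensL_apply, ← tensL_apply, map_neg]
  have hone : ∀ g, Gen g → one g = 0 ∨ ∃ s, g = delta s := by
    rintro g (hg | ⟨A, s, a, -, -, rfl⟩)
    · exact Or.inr hg
    · exact Or.inl (one_xi _ _ _)
  rcases lt_abs.1 hbig with hpos | hpos
  · have h1 := hS' _ (hK1 g g' hg.norm_le hg'.norm_le) (by linarith)
    rw [hρ] at h1
    rcases hone g hg with h2 | ⟨s, rfl⟩
    · simp [h2] at h1
    rcases hone g' hg' with h2 | ⟨t, rfl⟩
    · simp [h2] at h1
    rw [hτ] at h1
    have hact := active_of_small h1.2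
    have hmem : ∀ s t, tens (delta s) (delta t) ∈ K := fun s t =>
      hK1 _ _ (norm_delta_le s) (norm_delta_le t)
    have e1 : ∀ y, G (tens (delta (ref s t true)) y) + G (tens (delta (ref s t false)) y) =
        2 * G (tens (delta s) y) := by
      intro y
      rw [← tensL_apply, ← tensL_apply, ← tensL_apply, ← map_add, ← map_add, delta_ref, map_smul,
        map_smul, smul_eq_mul]
    have e2 : ∀ x, G (tens x (delta (ref t s true))) + G (tens x (delta (ref t s false))) =
        2 * G (tens x (delta t)) := by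
      intro x
      rw [← tensR_apply, ← tensR_apply, ← tensR_apply, ← map_add, ← map_add, delta_ref, map_smul,
        map_smul, smul_eq_mul]
    have h3 := hS' _ (hmem (ref s t true) (ref t s true)) (by
      have a1 := e1 (delta t)
      have a2 := e2 (delta (ref s t true))
      have a3 := hle _ (hmem (ref s t false) t)
      have a4 := hle _ (hmem (ref s t true) (ref t s false))
      linarith)
    rw [hτ, M_children hact] at h3
    simp at h3
  · have h1 := hS' _ (hK1 (-g) g' (by simpa using hg.norm_le) hg'.norm_le)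
      (by rw [hneg, map_neg]; linarith)
    rw [hρ] at h1
    rcases hone g hg with h2 | ⟨s, rfl⟩
    · simp [h2] at h1
    rcases hone g' hg' with h2 | ⟨t, rfl⟩
    · simp [h2] at h1
    have := h1.1
    simp [one_delta] at this
    linarith

end Pool.Agent.P.MP_3d49e4_an
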