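import Pool.Agent.P.MP_3d49e4_an.Tree
import Pool.Agent.P.MP_3d49e4_an.Defs

/-! The Banach space generated by the nodes. -/

set_option autoImplicit false

namespace Pool.Agent.P.MP_3d49e4_an

open Node
open scoped ENNReal

abbrev FF : Type := {f : Node → ℝ // Good 1 f}

abbrev Amb : Type := lp (fun _ : FF => ℝ) ∞

noncomputable def delta' (s : Node) : Amb :=
  ⟨fun f => f.1 s, memℓp_infty ⟨1, by
    rintro _ ⟨f, rfl⟩
    exact f.2.node s⟩⟩

noncomputable def XS : Submodule ℝ Amb := (Submodule.span ℝ (Set.range delta')).topologicalClosure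

def XX : Type := XS

noncomputable instance : NormedAddCommGroup XX := inferInstanceAs (NormedAddCommGroup XS)

noncomputable instance : NormedSpace ℝ XX := inferInstanceAs (NormedSpace ℝ XS)

instance : CompleteSpace XX :=
  (Submodule.isClosed_topologicalClosure (Submodule.span ℝ (Set.range delta'))).completeSpace_coe

noncomputable def delta (s : Node) : XX :=
  (⟨delta' s, Submodule.le_topologicalClosure _ (Submodule.subset_span ⟨s, rfl⟩)⟩ : XS)

noncomputable def val : XX →ₗᵢ[ℝ] Amb := XS.subtypeₗᵢ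

noncomputable def ev (f : FF) : XX →L[ℝ] ℝ :=
  (lp.evalCLM ℝ (fun _ : FF => ℝ) ∞ f).comp val.toContinuousLinearMap

theorem ev_apply (f : FF) (x : XX) : ev f x = val x f := rfl

theorem ev_delta (f : FF) (s : Node) : ev f (delta s) = f.1 s := rfl

theorem abs_ev_le (f : FF) (x : XX) : |ev f x| ≤ ‖x‖ := by
  rw [← val.norm_map x]
  exact lp.norm_apply_le_norm ENNReal.top_ne_zero (val x) f

theorem norm_le_of_ev {x : XX} {c : ℝ} (hc : 0 ≤ c) (h : ∀ f, |ev f x| ≤ c) : ‖x‖ ≤ c := by
  rw [← val.norm_map x]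
  exact lp.norm_le_of_forall_le (f := val x) hc h

theorem ext_ev {x y : XX} (h : ∀ f, ev f x = ev f y) : x = y :=
  val.injective (lp.ext (funext h))

theorem clm_ext {φ ψ : XX →L[ℝ] ℝ} (h : ∀ s, φ (delta s) = ψ (delta s)) : φ = ψ := by
  have hd : Dense ((Submodule.span ℝ (Set.range delta) : Submodule ℝ XX) : Set XX) := by
    intro x
    rw [val.isometry.isEmbedding.closure_eq_preimage_closure_image]
    have : val '' ((Submodule.span ℝ (Set.range delta) : Submodule ℝ XX) : Set XX) =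
        (Submodule.span ℝ (Set.range delta') : Set Amb) := by
      have h1 := Submodule.map_span val.toLinearMap (Set.range delta)
      rw [← Set.range_comp] at h1
      have h2 : (val.toLinearMap ∘ delta) = delta' := rfl
      rw [h2] at h1
      rw [← h1]
      rfl
    rw [this]
    exact (show XS from x).2
  refine ContinuousLinearMap.ext_on hd ?_
  rintro _ ⟨s, rfl⟩
  exact h s

theorem norm_delta_le (s : Node) : ‖delta s‖ ≤ 1 :=
  norm_le_of_ev zero_le_one fun f => f.2.node s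

theorem delta_dum (p : Node) (γ : ℝ) :
    delta (dum p γ true) + delta (dum p γ false) = (2 : ℝ) • delta p :=
  ext_ev fun f => by
    rw [map_add, map_smul, ev_delta, ev_delta, ev_delta, f.2.dum, smul_eq_mul]

theorem delta_ref (p q : Node) :
    delta (ref p q true) + delta (ref p q false) = (2 : ℝ) • delta p :=
  ext_ev fun f => by
    rw [map_add, map_smul, ev_delta, ev_delta, ev_delta, f.2.ref, smul_eq_mul]

/-- The extra vectors. -/
noncomputable def xi (A : Finset ℝ) (s : ℝ → Node) (a : ℝ → ℝ) : XX :=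
  ∑ γ ∈ A, a γ • (delta (s γ) - delta root)

theorem map_xi (φ : XX →L[ℝ] ℝ) (A : Finset ℝ) (s : ℝ → Node) (a : ℝ → ℝ) :
    φ (xi A s a) = ∑ γ ∈ A, a γ * (φ (delta (s γ)) - φ (delta root)) := by
  simp [xi, map_sum]

theorem norm_xi_le {A : Finset ℝ} {s : ℝ → Node} {a : ℝ → ℝ} (hA : Free A s)
    (ha : ∑ γ ∈ A, a γ ^ 2 ≤ 1) : ‖xi A s a‖ ≤ 1 :=
  norm_le_of_ev zero_le_one fun f => by
    rw [map_xi]
    exact f.2.extra A s a hA ha

/-- The generating vectors. -/
def Gen (g : XX) : Prop :=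
  (∃ s, g = delta s) ∨ ∃ A s a, Free A s ∧ ∑ γ ∈ A, a γ ^ 2 ≤ 1 ∧ g = xi A s a

theorem Gen.norm_le {g : XX} (h : Gen g) : ‖g‖ ≤ 1 := by
  rcases h with ⟨s, rfl⟩ | ⟨A, s, a, hA, ha, rfl⟩
  · exact norm_delta_le s
  · exact norm_xi_le hA ha

theorem good_of_gen {φ : XX →L[ℝ] ℝ} {c : ℝ} (h : ∀ g, Gen g → |φ g| ≤ c) :
    Good c fun s => φ (delta s) where
  dum p γ := by rw [← map_add, delta_dum, map_smul, smul_eq_mul]
  ref p q := by rw [← map_add, delta_ref, map_smul, smul_eq_mul]
  node s := h _ (Or.inl ⟨s, rfl⟩)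
  extra A s a hA ha := by
    rw [← map_xi]
    exact h _ (Or.inr ⟨A, s, a, hA, ha, rfl⟩)

theorem exists_lift {c : ℝ} {g : Node → ℝ} (hg : Good c g) :
    ∃ φ : XX →L[ℝ] ℝ, (∀ s, φ (delta s) = g s) ∧ ∀ x, |φ x| ≤ c * ‖x‖ := by
  have hc : 0 ≤ c := (abs_nonneg _).trans (hg.node root)
  rcases hc.eq_or_lt with hc | hc
  · refine ⟨0, fun s => ?_, fun x => by simp [← hc]⟩
    have := hg.node s
    rw [← hc] at this
    simpa using (abs_nonpos_iff.1 this).symm
  · have hg' : Good 1 fun s => g s / c :=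
      { dum := fun p γ => by rw [← add_div, hg.dum]; ring
        ref := fun p q => by rw [← add_div, hg.ref]; ring
        node := fun s => by
          rw [abs_div, abs_of_pos hc, div_le_one hc]; exact hg.node s
        extra := fun A s a hA ha => by
          have := hg.extra A s a hA ha
          simp only [← sub_div, ← mul_div_assoc, ← Finset.sum_div]
          rwa [abs_div, abs_of_pos hc, div_le_one hc] }
    refine ⟨c • ev ⟨_, hg'⟩, fun s => ?_, fun x => ?_⟩
    · rw [_root_.smul_apply, ev_delta, smul_eq_mul]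
      field_simp
    · rw [_root_.smul_apply, smul_eq_mul, abs_mul, abs_of_pos hc]
      exact mul_le_mul_of_nonneg_left (abs_ev_le _ _) hc.le

theorem polar {φ : XX →L[ℝ] ℝ} {c : ℝ} (h : ∀ g, Gen g → |φ g| ≤ c) (x : XX) :
    |φ x| ≤ c * ‖x‖ := by
  obtain ⟨ψ, h1, h2⟩ := exists_lift (good_of_gen h)
  rw [← clm_ext h1]
  exact h2 x

theorem good_slice (x : XX) : Good ‖x‖ fun t => ev ⟨_, good_M t⟩ x where
  dum p γ := by
    have : ∀ b, ev ⟨_, good_M (dum p γ b)⟩ = ev ⟨_, good_M p⟩ := fun b =>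
      clm_ext fun s => by simp only [ev_delta]; rw [M_symm, M_dum, M_symm]
    rw [this, this]; ring
  ref p q := by
    have : ev ⟨_, good_M (ref p q true)⟩ + ev ⟨_, good_M (ref p q false)⟩ =
        (2 : ℝ) • ev ⟨_, good_M p⟩ :=
      clm_ext fun s => by
        simp only [_root_.add_apply, _root_.smul_apply, ev_delta,
          smul_eq_mul]
        rw [M_symm s, M_symm s, M_symm s, M_ref]
    have h2 := congrArg (fun φ : XX →L[ℝ] ℝ => φ x) this
    simpa using h2
  node t := abs_ev_le _ x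
  extra A t a hA ha := by
    have : ∑ γ ∈ A, a γ • (ev ⟨_, good_M (t γ)⟩ - ev ⟨_, good_M root⟩) =
        ev ⟨_, good_ME hA ha⟩ :=
      clm_ext fun s => by
        simp only [_root_.sum_apply, _root_.smul_apply,
          _root_.sub_apply, ev_delta, smul_eq_mul]
        rw [M_symm s root, M_root]
        simp
    have h2 := congrArg (fun φ : XX →L[ℝ] ℝ => φ x) this
    simp only [_root_.sum_apply, _root_.smul_apply,
      _root_.sub_apply, smul_eq_mul] at h2
    rw [h2]
    exact abs_ev_le _ x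

theorem exists_T : ∃ T : XX →L[ℝ] XX →L[ℝ] ℝ, ∀ s t, T (delta s) (delta t) = M s t := by
  choose L hL1 hL2 using fun x : XX => exists_lift (good_slice x)
  let L' : XX →ₗ[ℝ] XX →L[ℝ] ℝ :=
    { toFun := L
      map_add' := fun x y => clm_ext fun s => by
        simp only [hL1, _root_.add_apply, map_add]
      map_smul' := fun c x => clm_ext fun s => by
        simp only [hL1, _root_.smul_apply, map_smul, RingHom.id_apply] }
  refine ⟨L'.mkContinuous 1 fun x => ?_, fun s t => ?_⟩
  · rw [one_mul]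
    exact ContinuousLinearMap.opNorm_le_bound _ (norm_nonneg _) (hL2 x)
  · change L (delta s) (delta t) = _
    rw [hL1, ev_delta]

noncomputable def one : XX →L[ℝ] ℝ := ev ⟨_, good_one⟩

theorem one_delta (s : Node) : one (delta s) = 1 := rfl

theorem one_xi (A : Finset ℝ) (s : ℝ → Node) (a : ℝ → ℝ) : one (xi A s a) = 0 := by
  simp [map_xi, one_delta]

noncomputable def hh (γ : ℝ) : XX →L[ℝ] ℝ := ev ⟨_, good_hfun γ⟩

theorem hh_delta (γ : ℝ) (s : Node) : hh γ (delta s) = hfun γ s := rfl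

theorem key_ineq (φ : XX →L[ℝ] ℝ) (γ : ℝ)
    (h : ∀ s, Below γ s → φ (delta s) = φ (delta root)) (x : XX) (hx : ‖x‖ ≤ 1) :
    |φ x - φ (delta root)| ≤ 3 * ‖φ‖ * (2 - (one + hh γ) x) := by
  set K := ‖φ‖ with hK
  have hK0 : 0 ≤ K := norm_nonneg _
  have hφ : ∀ g, Gen g → |φ g| ≤ K := fun g hg =>
    (φ.le_opNorm g).trans (mul_le_of_le_one_right hK0 hg.norm_le)
  have hr := hφ _ (Or.inl ⟨root, rfl⟩)
  have h1 : ∀ σ : ℝ, |σ| = 1 →
      σ * (φ x - φ (delta root) * one x) + 2 * K * (one + hh γ) x ≤ 4 * K := by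
    intro σ hσ
    have := polar (φ := σ • (φ - φ (delta root) • one) + (2 * K) • (one + hh γ)) (c := 4 * K)
      (fun g hg => by
        have hg' := hφ g hg
        simp only [_root_.add_apply, _root_.smul_apply,
          _root_.sub_apply, smul_eq_mul]
        rcases hg with ⟨s, rfl⟩ | ⟨A, s, a, hA, ha, rfl⟩
        · rw [one_delta, hh_delta, mul_one]
          unfold hfun
          split_ifs with h2 h3
          · rw [h s ⟨_, h2⟩, abs_le]; constructor <;> nlinarith
          · rw [h s ⟨_, h3⟩, abs_le]; constructor <;> nlinarith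
          · refine (abs_add_le _ _).trans ?_
            rw [abs_mul, hσ, add_zero, mul_one, abs_of_nonneg (by positivity : 0 ≤ 2 * K)]
            have := abs_sub (φ (delta s)) (φ (delta root))
            linarith
        · rw [one_xi, mul_zero, sub_zero, zero_add]
          refine (abs_add_le _ _).trans ?_
          rw [abs_mul, hσ, abs_mul, abs_of_nonneg (by positivity : 0 ≤ 2 * K)]
          have h2 : |hh γ (xi A s a)| ≤ 1 := (abs_ev_le _ _).trans (norm_xi_le hA ha)
          nlinarith) x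
    simp only [_root_.add_apply, _root_.smul_apply,
      _root_.sub_apply, smul_eq_mul] at this ⊢
    have h3 := (le_abs_self _).trans this
    nlinarith
  have h2 := h1 1 (by simp)
  have h3 := h1 (-1) (by simp)
  have h4 : |one x| ≤ 1 := (abs_ev_le _ _).trans hx
  have h5 : |hh γ x| ≤ 1 := (abs_ev_le _ _).trans hx
  simp only [_root_.add_apply] at h2 h3 ⊢
  rw [abs_le] at h4 h5 hr ⊢
  have h6 : |φ (delta root) * (1 - one x)| ≤ K * (2 - (one x + hh γ x)) := by
    rw [abs_mul, abs_of_nonneg (by linarith : 0 ≤ 1 - one x)]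
    exact mul_le_mul (abs_le.2 hr) (by linarith) (by linarith) hK0
  rw [abs_le] at h6
  constructor <;> nlinarith

theorem apep_root : IsAPEP (Metric.closedBall (0 : XX) 1) (delta root) := by
  refine ⟨by simpa using norm_delta_le root, fun U hU h0 => ?_⟩
  obtain ⟨V, hV, rfl⟩ := isOpen_induced_iff.1 hU
  obtain ⟨I, u, hu, hsub⟩ := isOpen_pi_iff.1 hV _ h0
  have hbad : (⋃ φ ∈ I, {γ : ℝ | ∃ s, Below γ s ∧ φ (delta s) ≠ φ (delta root)}).Countable :=
    I.countable_toSet.biUnion fun φ _ => countable_bad (c := ‖φ‖) (f := fun s => φ (delta s))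
      (good_of_gen fun g hg =>
        (φ.le_opNorm g).trans (mul_le_of_le_one_right (norm_nonneg _) hg.norm_le))
  obtain ⟨γ, hγ⟩ : ∃ γ : ℝ,
      γ ∉ ⋃ φ ∈ I, {γ : ℝ | ∃ s, Below γ s ∧ φ (delta s) ≠ φ (delta root)} := by
    by_contra hh
    push Not at hh
    exact Cardinal.not_countable_real (hbad.mono fun γ _ => hh γ)
  have hγ' : ∀ φ ∈ I, ∀ s, Below γ s → φ (delta s) = φ (delta root) := by
    intro φ hφ s hs
    by_contra hne
    exact hγ (Set.mem_biUnion (x := φ) hφ ⟨s, hs, hne⟩)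
  have hev : ∀ᶠ α in nhdsWithin (0 : ℝ) (Set.Ioi 0), ∀ φ ∈ I, ∀ y : ℝ,
      |y - φ (delta root)| ≤ 3 * ‖φ‖ * α → y ∈ u φ := by
    refine (Filter.eventually_all_finset I).2 fun φ hφ => ?_
    obtain ⟨ε, hε, hb⟩ := Metric.isOpen_iff.1 (hu φ hφ).1 _ (hu φ hφ).2
    have ht : Filter.Tendsto (fun α : ℝ => 3 * ‖φ‖ * α) (nhdsWithin 0 (Set.Ioi 0)) (nhds 0) := by
      have : Filter.Tendsto (fun α : ℝ => 3 * ‖φ‖ * α) (nhds 0) (nhds (3 * ‖φ‖ * 0)) :=
        (continuous_const.mul continuous_id).tendsto 0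
      rw [mul_zero] at this
      exact this.mono_left nhdsWithin_le_nhds
    filter_upwards [ht.eventually (gt_mem_nhds hε)] with α hα y hy
    exact hb (hy.trans_lt hα)
  obtain ⟨α, hα, hα0⟩ := (hev.and self_mem_nhdsWithin).exists
  have hmem : delta (dum root γ true) ∈ Metric.closedBall (0 : XX) 1 := by
    simpa using norm_delta_le _
  have hval : (one + hh γ) (delta (dum root γ true)) = 2 := by
    rw [_root_.add_apply, one_delta, hh_delta, hfun, if_pos (anc_refl _)]
    norm_num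
  have hle : ∀ y ∈ (one + hh γ) '' Metric.closedBall (0 : XX) 1, y ≤ 2 := by
    rintro _ ⟨x, hx, rfl⟩
    have hx' : ‖x‖ ≤ 1 := by simpa using hx
    have h4 : |one x| ≤ 1 := (abs_ev_le _ _).trans hx'
    have h5 : |hh γ x| ≤ 1 := (abs_ev_le _ _).trans hx'
    rw [_root_.add_apply]
    linarith [le_abs_self (one x), le_abs_self (hh γ x)]
  have hsup : sSup ((one + hh γ) '' Metric.closedBall (0 : XX) 1) = 2 :=
    IsGreatest.csSup_eq ⟨⟨_, hmem, hval⟩, hle⟩
  have hα0' : 0 < α := hα0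
  refine ⟨one + hh γ, α, hα0', ⟨_, hmem, ?_⟩, fun x hx => ⟨hx.1, hsub fun φ hφ => ?_⟩⟩
  · rw [hsup, hval]; linarith
  · have hx' : ‖x‖ ≤ 1 := by simpa using hx.1
    have h1 := key_ineq φ γ (hγ' φ hφ) x hx'
    have h2 := hx.2
    rw [hsup] at h2
    refine hα φ hφ (φ x) (h1.trans ?_)
    exact mul_le_mul_of_nonneg_left (by linarith) (by positivity)

end Pool.Agent.P.MP_3d49e4_an
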