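import Mathlib

/-! The tree whose edges are labelled by reals or by nodes, and the matching kernel `M`. -/

set_option autoImplicit false

namespace Pool.Agent.P.MP_3d49e4_an

open Classical

inductive Node : Type
  | root : Node
  | dum : Node → ℝ → Bool → Node
  | ref : Node → Node → Bool → Node

namespace Node

def Anc (a : Node) : Node → Prop
  | root => a = root
  | dum p γ b => a = dum p γ b ∨ Anc a p
  | ref p q b => a = ref p q b ∨ Anc a p

def size : Node → ℕ
  | root => 0
  | dum p _ _ => size p + 1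
  | ref p q _ => size p + size q + 1

noncomputable def supp : Node → Finset ℝ
  | root => ∅
  | dum p γ _ => insert γ (supp p)
  | ref p q _ => supp p ∪ supp q

theorem anc_refl (s : Node) : Anc s s := by
  cases s <;> simp [Anc]

theorem anc_cases {a s : Node} (h : Anc a s) : a = s ∨ size a < size s := by
  induction s with
  | root => exact Or.inl h
  | dum p γ b ih =>
    rcases h with h | h
    · exact Or.inl h
    · right
      rcases ih h with h' | h'
      · subst h'; simp [size]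
      · simp only [size]; omega
  | ref p q b ih _ =>
    rcases h with h | h
    · exact Or.inl h
    · right
      rcases ih h with h' | h'
      · subst h'; simp only [size]; omega
      · simp only [size]; omega

theorem anc_size {a s : Node} (h : Anc a s) : size a ≤ size s := by
  rcases anc_cases h with h | h
  · rw [h]
  · exact h.le

theorem anc_trans {a b s : Node} (h1 : Anc a b) (h2 : Anc b s) : Anc a s := by
  induction s with
  | root => rw [show b = root from h2] at h1; exact h1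
  | dum p γ c ih =>
    rcases h2 with h | h
    · rw [h] at h1; exact h1
    · exact Or.inr (ih h)
  | ref p q c ih _ =>
    rcases h2 with h | h
    · rw [h] at h1; exact h1
    · exact Or.inr (ih h)

theorem anc_total {a b s : Node} (h1 : Anc a s) (h2 : Anc b s) : Anc a b ∨ Anc b a := by
  induction s with
  | root => left; rw [show b = root from h2]; exact h1
  | dum p γ c ih =>
    rcases h2 with h | h
    · left; rw [h]; exact h1
    · rcases h1 with h' | h'
      · right; rw [h']; exact Or.inr h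
      · exact ih h' h
  | ref p q c ih _ =>
    rcases h2 with h | h
    · left; rw [h]; exact h1
    · rcases h1 with h' | h'
      · right; rw [h']; exact Or.inr h
      · exact ih h' h

theorem anc_supp {a s : Node} (h : Anc a s) : supp a ⊆ supp s := by
  induction s with
  | root => rw [show a = root from h]
  | dum p γ c ih =>
    rcases h with h | h
    · rw [h]
    · exact (ih h).trans (Finset.subset_insert _ _)
  | ref p q c ih _ =>
    rcases h with h | h
    · rw [h]
    · exact (ih h).trans Finset.subset_union_left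

theorem anc_ref_parent {p q s : Node} {b : Bool} (h : Anc (ref p q b) s) : Anc p s :=
  anc_trans (show Anc p (ref p q b) from Or.inr (anc_refl p)) h

/-- Two edges on the path to `s`: equal, or one lies on the path to the start of the other. -/
theorem edge_cases {p q p' q' s : Node} {b b' : Bool} (h : Anc (ref p q b) s)
    (h' : Anc (ref p' q' b') s) :
    ref p q b = ref p' q' b' ∨ Anc (ref p q b) p' ∨ Anc (ref p' q' b') p := by
  rcases anc_total h h' with h1 | h1
  · rcases h1 with h1 | h1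
    · exact Or.inl h1
    · exact Or.inr (Or.inl h1)
  · rcases h1 with h1 | h1
    · exact Or.inl h1.symm
    · exact Or.inr (Or.inr h1)

def Match (s t p q : Node) (e e' : Bool) : Prop := Anc (ref p q e) s ∧ Anc (ref q p e') t

def Active (p q : Node) : Prop := ¬ ∃ p' q' e e', Match p q p' q' e e'

def AM (s t p q : Node) (e e' : Bool) : Prop := Match s t p q e e' ∧ Active p q

theorem Active.symm {p q : Node} (h : Active p q) : Active q p := by
  rintro ⟨p', q', e, e', h1, h2⟩
  exact h ⟨q', p', e', e, h2, h1⟩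

theorem AM.symm {s t p q : Node} {e e' : Bool} (h : AM s t p q e e') : AM t s q p e' e :=
  ⟨⟨h.1.2, h.1.1⟩, h.2.symm⟩

theorem AM.unique {s t p q p' q' : Node} {e f e' f' : Bool} (h : AM s t p q e f)
    (h' : AM s t p' q' e' f') : p = p' ∧ q = q' ∧ e = e' ∧ f = f' := by
  obtain ⟨⟨h1, h2⟩, h3⟩ := h
  obtain ⟨⟨h1', h2'⟩, h3'⟩ := h'
  rcases edge_cases h1 h1' with a | a | a <;> rcases edge_cases h2 h2' with b | b | b
  · simp only [ref.injEq] at a b; tauto
  · simp only [ref.injEq] at a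
    obtain ⟨rfl, rfl, rfl⟩ := a
    have := anc_size b; simp only [size] at this; omega
  · simp only [ref.injEq] at a
    obtain ⟨rfl, rfl, rfl⟩ := a
    have := anc_size b; simp only [size] at this; omega
  · simp only [ref.injEq] at b
    obtain ⟨rfl, rfl, rfl⟩ := b
    have := anc_size a; simp only [size] at this; omega
  · exact absurd ⟨p, q, e, f, a, b⟩ h3'
  · have := anc_size a; have := anc_size b; simp only [size] at *; omega
  · simp only [ref.injEq] at b
    obtain ⟨rfl, rfl, rfl⟩ := b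
    have := anc_size a; simp only [size] at this; omega
  · have := anc_size a; have := anc_size b; simp only [size] at *; omega
  · exact absurd ⟨p', q', e', f', a, b⟩ h3

theorem exists_AM {s t : Node} (h : ¬ Active s t) : ∃ p q e e', AM s t p q e e' := by
  have key : ∀ n : ℕ, ∀ p q e e', size p ≤ n → Match s t p q e e' →
      ∃ p q e e', AM s t p q e e' := by
    intro n
    induction n with
    | zero =>
      intro p q e e' hn hm
      refine ⟨p, q, e, e', hm, ?_⟩
      rintro ⟨p', q', f, f', h1, -⟩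
      have := anc_size h1; simp only [size] at this; omega
    | succ n ih =>
      intro p q e e' hn hm
      by_cases ha : Active p q
      · exact ⟨p, q, e, e', hm, ha⟩
      · obtain ⟨p', q', f, f', h1, h2⟩ := not_not.1 ha
        refine ih p' q' f f' ?_ ⟨anc_trans h1 (anc_ref_parent hm.1),
          anc_trans h2 (anc_ref_parent hm.2)⟩
        have := anc_size h1; simp only [size] at this; omega
  obtain ⟨p, q, e, e', hm⟩ := not_not.1 h
  exact key _ p q e e' le_rfl hm

def sgn (b : Bool) : ℝ := if b then 1 else -1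

noncomputable def M (s t : Node) : ℝ :=
  if ∃ p q e, AM s t p q e e then 1 else if ∃ p q e e', AM s t p q e e' then -1 else 0

theorem M_eq {s t p q : Node} {e e' : Bool} (h : AM s t p q e e') : M s t = sgn e * sgn e' := by
  unfold M
  by_cases he : e = e'
  · subst he
    rw [if_pos ⟨p, q, e, h⟩]
    cases e <;> simp [sgn]
  · rw [if_neg, if_pos ⟨p, q, e, e', h⟩]
    · cases e <;> cases e' <;> simp_all [sgn]
    · rintro ⟨p', q', f, h'⟩
      obtain ⟨-, -, h1, h2⟩ := h.unique h'
      exact he (h1.trans h2.symm)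

theorem M_zero {s t : Node} (h : ¬ ∃ p q e e', AM s t p q e e') : M s t = 0 := by
  unfold M
  rw [if_neg, if_neg h]
  rintro ⟨p, q, e, h'⟩
  exact h ⟨p, q, e, e, h'⟩

theorem M_symm (s t : Node) : M s t = M t s := by
  by_cases h : ∃ p q e e', AM s t p q e e'
  · obtain ⟨p, q, e, e', h⟩ := h
    rw [M_eq h, M_eq h.symm, mul_comm]
  · rw [M_zero h, M_zero]
    rintro ⟨p, q, e, e', h'⟩
    exact h ⟨_, _, _, _, h'.symm⟩

theorem abs_sgn_mul (e e' : Bool) : |sgn e * sgn e'| = 1 := by
  cases e <;> cases e' <;> simp [sgn]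

theorem abs_M_le (s t : Node) : |M s t| ≤ 1 := by
  by_cases h : ∃ p q e e', AM s t p q e e'
  · obtain ⟨p, q, e, e', h⟩ := h
    rw [M_eq h, abs_sgn_mul]
  · rw [M_zero h]; simp

theorem M_root (t : Node) : M root t = 0 := by
  apply M_zero
  rintro ⟨p, q, e, e', ⟨h, -⟩, -⟩
  simp [Anc] at h

theorem active_of_small {s t : Node} (h : |M s t| < 1) : Active s t := by
  by_contra ha
  obtain ⟨p, q, e, e', h'⟩ := exists_AM ha
  rw [M_eq h', abs_sgn_mul] at h
  exact lt_irrefl _ h

theorem M_children {s t : Node} (h : Active s t) : M (ref s t true) (ref t s true) = 1 := by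
  rw [M_eq (p := s) (q := t) (e := true) (e' := true) ⟨⟨anc_refl _, anc_refl _⟩, h⟩]
  simp [sgn]

theorem M_dum (p t : Node) (γ : ℝ) (b : Bool) : M (dum p γ b) t = M p t := by
  by_cases h : ∃ p' q e e', AM p t p' q e e'
  · obtain ⟨p', q, e, e', h⟩ := h
    rw [M_eq h, M_eq (s := dum p γ b) (p := p') (q := q) (e := e) (e' := e')
      ⟨⟨Or.inr h.1.1, h.1.2⟩, h.2⟩]
  · rw [M_zero h, M_zero]
    rintro ⟨p', q, e, e', ⟨h1, h2⟩, h3⟩
    rcases h1 with h1 | h1
    · simp at h1
    · exact h ⟨p', q, e, e', ⟨h1, h2⟩, h3⟩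

theorem M_ref (p q t : Node) : M (ref p q true) t + M (ref p q false) t = 2 * M p t := by
  by_cases h : ∃ p' q e e', AM p t p' q e e'
  · obtain ⟨p', q', e, e', h⟩ := h
    rw [M_eq h, M_eq (s := ref p q true) (p := p') (q := q') (e := e) (e' := e')
      ⟨⟨Or.inr h.1.1, h.1.2⟩, h.2⟩, M_eq (s := ref p q false) (p := p') (q := q') (e := e)
      (e' := e') ⟨⟨Or.inr h.1.1, h.1.2⟩, h.2⟩]
    ring
  · rw [M_zero h]
    by_cases h' : ∃ e', Anc (ref q p e') t ∧ Active p q
    · obtain ⟨e', h1, h2⟩ := h'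
      rw [M_eq (p := p) (q := q) (e := true) (e' := e') ⟨⟨anc_refl _, h1⟩, h2⟩,
        M_eq (p := p) (q := q) (e := false) (e' := e') ⟨⟨anc_refl _, h1⟩, h2⟩]
      cases e' <;> simp [sgn]
    · have key : ∀ b, M (ref p q b) t = 0 := by
        intro b
        apply M_zero
        rintro ⟨p', q', e, e', ⟨h1, h2⟩, h3⟩
        rcases h1 with h1 | h1
        · simp only [ref.injEq] at h1
          obtain ⟨rfl, rfl, rfl⟩ := h1
          exact h' ⟨e', h2, h3⟩
        · exact h ⟨p', q', e, e', ⟨h1, h2⟩, h3⟩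
      rw [key, key]; simp

def Below (γ : ℝ) (s : Node) : Prop := ∃ b, Anc (dum root γ b) s

theorem Below.mem_supp {γ : ℝ} {s : Node} (h : Below γ s) : γ ∈ supp s := by
  obtain ⟨b, h⟩ := h
  exact anc_supp h (by simp [supp])

theorem dum_root_unique {γ γ' : ℝ} {b b' : Bool} {s : Node} (h : Anc (dum root γ b) s)
    (h' : Anc (dum root γ' b') s) : γ = γ' ∧ b = b' := by
  rcases anc_total h h' with h1 | h1
  · simp [Anc] at h1; exact h1
  · simp [Anc] at h1; exact ⟨h1.1.symm, h1.2.symm⟩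

theorem Below.parent {γ : ℝ} {s p q : Node} {e : Bool} (h : Below γ s)
    (h' : Anc (ref p q e) s) : Below γ p := by
  obtain ⟨b, h⟩ := h
  rcases anc_total h h' with h1 | h1
  · rcases h1 with h1 | h1
    · simp at h1
    · exact ⟨b, h1⟩
  · simp [Anc] at h1

def Free (A : Finset ℝ) (s : ℝ → Node) : Prop :=
  (∀ γ ∈ A, Below γ (s γ)) ∧ ∀ γ ∈ A, ∀ γ' ∈ A, γ ≠ γ' → γ ∉ supp (s γ')

theorem Free.unique {A : Finset ℝ} {s : ℝ → Node} (hA : Free A s) (t : Node) {γ γ' : ℝ}
    (hγ : γ ∈ A) (hγ' : γ' ∈ A) (h : M (s γ) t ≠ 0) (h' : M (s γ') t ≠ 0) : γ = γ' := by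
  by_contra hne
  obtain ⟨p, q, e, f, ⟨h1, h2⟩, -⟩ : ∃ p q e e', AM (s γ) t p q e e' := by
    by_contra hh; exact h (M_zero hh)
  obtain ⟨p', q', e', f', ⟨h1', h2'⟩, -⟩ : ∃ p q e e', AM (s γ') t p q e e' := by
    by_contra hh; exact h' (M_zero hh)
  have hp : γ ∈ supp p := ((hA.1 γ hγ).parent h1).mem_supp
  have hp' : γ' ∈ supp p' := ((hA.1 γ' hγ').parent h1').mem_supp
  rcases edge_cases h2 h2' with a | a | a
  · simp only [ref.injEq] at a
    obtain ⟨rfl, rfl, rfl⟩ := a
    exact hA.2 γ hγ γ' hγ' hne (anc_supp (anc_ref_parent h1') hp)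
  · refine hA.2 γ hγ γ' hγ' hne (anc_supp h1' ?_)
    exact Finset.mem_union_right _ (anc_supp a (Finset.mem_union_right _ hp))
  · refine hA.2 γ' hγ' γ hγ (Ne.symm hne) (anc_supp h1 ?_)
    exact Finset.mem_union_right _ (anc_supp a (Finset.mem_union_right _ hp'))

theorem sum_abs_le_one {A : Finset ℝ} {u : ℝ → ℝ} (h1 : ∀ γ ∈ A, |u γ| ≤ 1)
    (h2 : ∀ γ ∈ A, ∀ γ' ∈ A, u γ ≠ 0 → u γ' ≠ 0 → γ = γ') : ∑ γ ∈ A, |u γ| ≤ 1 := by
  by_cases h : ∃ γ ∈ A, u γ ≠ 0
  · obtain ⟨γ, hγ, hu⟩ := h
    rw [Finset.sum_eq_single_of_mem γ hγ]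
    · exact h1 γ hγ
    · intro γ' hγ' hne
      by_contra hh
      exact hne (h2 γ' hγ' γ hγ (fun h0 => hh (by simp [h0])) hu)
  · push Not at h
    rw [Finset.sum_eq_zero fun γ hγ => by simp [h γ hγ]]
    exact zero_le_one

theorem Free.sum_M {A : Finset ℝ} {s : ℝ → Node} (hA : Free A s) (t : Node) :
    ∑ γ ∈ A, |M (s γ) t| ≤ 1 :=
  sum_abs_le_one (fun _ _ => abs_M_le _ _) fun _ hγ _ hγ' h h' => hA.unique t hγ hγ' h h'

theorem abs_sum_mul_le {A : Finset ℝ} {a u : ℝ → ℝ} (ha : ∑ γ ∈ A, a γ ^ 2 ≤ 1)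
    (hu : ∑ γ ∈ A, |u γ| ≤ 1) : |∑ γ ∈ A, a γ * u γ| ≤ 1 := by
  refine (Finset.abs_sum_le_sum_abs _ _).trans (le_trans (Finset.sum_le_sum fun γ hγ => ?_) hu)
  rw [abs_mul]
  have h1 : a γ ^ 2 ≤ 1 :=
    (Finset.single_le_sum (f := fun γ => a γ ^ 2) (fun _ _ => sq_nonneg _) hγ).trans ha
  have h2 : |a γ| ≤ 1 := by
    rw [← sq_le_one_iff_abs_le_one]; exact h1
  exact mul_le_of_le_one_left (abs_nonneg _) h2

/-- Martingale functions bounded by `c` on nodes and on the extra vectors. -/
structure Good (c : ℝ) (f : Node → ℝ) : Prop where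
  dum : ∀ p γ, f (dum p γ true) + f (dum p γ false) = 2 * f p
  ref : ∀ p q, f (ref p q true) + f (ref p q false) = 2 * f p
  node : ∀ s, |f s| ≤ c
  extra : ∀ A s (a : ℝ → ℝ), Free A s → ∑ γ ∈ A, a γ ^ 2 ≤ 1 →
    |∑ γ ∈ A, a γ * (f (s γ) - f root)| ≤ c

theorem good_M (t : Node) : Good 1 fun s => M s t where
  dum p γ := by simp only [M_dum]; ring
  ref p q := M_ref p q t
  node s := abs_M_le s t
  extra A s a hA ha := by
    simp only [M_root, sub_zero]
    exact abs_sum_mul_le ha (hA.sum_M t)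

theorem good_ME {B : Finset ℝ} {t : ℝ → Node} {b : ℝ → ℝ} (hB : Free B t)
    (hb : ∑ γ ∈ B, b γ ^ 2 ≤ 1) : Good 1 fun s => ∑ γ ∈ B, b γ * M s (t γ) where
  dum p γ := by simp only [M_dum]; ring
  ref p q := by
    rw [← Finset.sum_add_distrib, Finset.mul_sum]
    refine Finset.sum_congr rfl fun γ _ => ?_
    rw [← mul_add, M_ref]; ring
  node s := by
    refine abs_sum_mul_le hb ?_
    simp only [M_symm s]
    exact hB.sum_M s
  extra A s a hA ha := by
    simp only [M_root, mul_zero, Finset.sum_const_zero, sub_zero, Finset.mul_sum]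
    calc |∑ γ ∈ A, ∑ δ ∈ B, a γ * (b δ * M (s γ) (t δ))|
        ≤ ∑ γ ∈ A, ∑ δ ∈ B, |a γ * (b δ * M (s γ) (t δ))| :=
          (Finset.abs_sum_le_sum_abs _ _).trans
            (Finset.sum_le_sum fun _ _ => Finset.abs_sum_le_sum_abs _ _)
      _ ≤ ∑ γ ∈ A, ∑ δ ∈ B,
          (a γ ^ 2 / 2 * |M (s γ) (t δ)| + b δ ^ 2 / 2 * |M (s γ) (t δ)|) := by
          refine Finset.sum_le_sum fun γ _ => Finset.sum_le_sum fun δ _ => ?_
          rw [← mul_assoc, abs_mul, ← add_mul]
          refine mul_le_mul_of_nonneg_right ?_ (abs_nonneg _)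
          rw [abs_mul]
          nlinarith [sq_nonneg (|a γ| - |b δ|), sq_abs (a γ), sq_abs (b δ)]
      _ = ∑ γ ∈ A, a γ ^ 2 / 2 * ∑ δ ∈ B, |M (t δ) (s γ)| +
          ∑ δ ∈ B, b δ ^ 2 / 2 * ∑ γ ∈ A, |M (s γ) (t δ)| := by
          simp only [Finset.sum_add_distrib, Finset.mul_sum]
          rw [Finset.sum_comm (s := B) (t := A)]
          simp only [M_symm (t _)]
      _ ≤ ∑ γ ∈ A, a γ ^ 2 / 2 + ∑ δ ∈ B, b δ ^ 2 / 2 := by
          refine add_le_add (Finset.sum_le_sum fun γ _ => ?_) (Finset.sum_le_sum fun δ _ => ?_)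
          · exact mul_le_of_le_one_right (by positivity) (hB.sum_M _)
          · exact mul_le_of_le_one_right (by positivity) (hA.sum_M _)
      _ ≤ 1 := by
          rw [← Finset.sum_div, ← Finset.sum_div]; linarith

theorem good_one : Good 1 fun _ => 1 where
  dum _ _ := by norm_num
  ref _ _ := by norm_num
  node _ := by simp
  extra _ _ _ _ _ := by simp

noncomputable def hfun (γ : ℝ) (s : Node) : ℝ :=
  if Anc (dum root γ true) s then 1 else if Anc (dum root γ false) s then -1 else 0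

theorem hfun_root (γ : ℝ) : hfun γ root = 0 := by simp [hfun, Anc]

theorem abs_hfun_le (γ : ℝ) (s : Node) : |hfun γ s| ≤ 1 := by
  unfold hfun; split_ifs <;> simp

theorem below_of_hfun {γ : ℝ} {s : Node} (h : hfun γ s ≠ 0) : Below γ s := by
  unfold hfun at h
  split_ifs at h with h1 h2
  · exact ⟨_, h1⟩
  · exact ⟨_, h2⟩
  · exact absurd rfl h

theorem good_hfun (γ : ℝ) : Good 1 (hfun γ) where
  dum p γ' := by
    by_cases h : p = root ∧ γ' = γ
    · obtain ⟨rfl, rfl⟩ := h
      simp [hfun, Anc]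
    · have key : ∀ b b', Anc (dum root γ b) (dum p γ' b') ↔ Anc (dum root γ b) p := by
        intro b b'
        simp only [Anc, dum.injEq, or_iff_right_iff_imp]
        rintro ⟨h1, h2, -⟩
        exact absurd ⟨h1.symm, h2.symm⟩ h
      simp only [hfun, key]; ring
  ref p q := by
    have key : ∀ b b', Anc (dum root γ b) (ref p q b') ↔ Anc (dum root γ b) p := by
      intro b b'
      simp [Anc]
    simp only [hfun, key]; ring
  node s := abs_hfun_le γ s
  extra A s a hA ha := by
    simp only [hfun_root, sub_zero]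
    refine abs_sum_mul_le ha (sum_abs_le_one (fun _ _ => abs_hfun_le _ _) ?_)
    intro γ₁ h₁ γ₂ h₂ hu₁ hu₂
    obtain ⟨b₁, hb₁⟩ := below_of_hfun hu₁
    obtain ⟨b₂, hb₂⟩ := below_of_hfun hu₂
    obtain ⟨c₁, hc₁⟩ := hA.1 γ₁ h₁
    obtain ⟨c₂, hc₂⟩ := hA.1 γ₂ h₂
    rw [← (dum_root_unique hb₁ hc₁).1, ← (dum_root_unique hb₂ hc₂).1]

end Node

/-- Free sets for finite set mappings. -/
theorem exists_free (S : ℝ → Finset ℝ) (k n : ℕ) : ∀ U : Set ℝ, U.Infinite →
    (∀ γ ∈ U, (S γ).card ≤ k) →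
    ∃ A : Finset ℝ, (A : Set ℝ) ⊆ U ∧ A.card = n ∧ ∀ γ ∈ A, ∀ γ' ∈ A, γ ≠ γ' → γ ∉ S γ' := by
  induction n with
  | zero => intro U _ _; exact ⟨∅, by simp, rfl, by simp⟩
  | succ n ih =>
    intro U hU hk
    obtain ⟨D, hD, hDc⟩ := hU.exists_subset_card_eq (k + 1)
    have h1 : ∃ d ∈ D, {γ ∈ U | d ∉ S γ}.Infinite := by
      by_contra hh
      push Not at hh
      refine hU ((D.finite_toSet.biUnion (t := fun d => {γ ∈ U | d ∉ S γ})
        fun d hd => hh d hd).subset ?_)
      intro γ hγ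
      have : ¬ D ⊆ S γ := fun hs => by
        have := Finset.card_le_card hs
        have := hk γ hγ
        omega
      obtain ⟨d, hd, hd'⟩ := Finset.not_subset.1 this
      exact Set.mem_biUnion (x := d) hd ⟨hγ, hd'⟩
    obtain ⟨d, hd, hinf⟩ := h1
    obtain ⟨A, hA, hAc, hAf⟩ := ih ({γ ∈ U | d ∉ S γ} \ (insert d (S d) : Finset ℝ))
      (hinf.sdiff (Finset.finite_toSet _)) fun γ hγ => hk γ hγ.1.1
    have hdA : d ∉ A := fun h => (hA h).2 (by simp)
    refine ⟨insert d A, ?_, by rw [Finset.card_insert_of_notMem hdA, hAc], ?_⟩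
    · intro γ hγ
      rcases Finset.mem_insert.1 hγ with rfl | hγ
      · exact hD hd
      · exact (hA hγ).1.1
    · intro γ hγ γ' hγ' hne
      rcases Finset.mem_insert.1 hγ with h1 | h1 <;> rcases Finset.mem_insert.1 hγ' with h2 | h2
      · exact absurd (h1.trans h2.symm) hne
      · rw [h1]; exact (hA h2).1.2
      · rw [h2]; exact fun h => (hA h1).2 (by simp [h])
      · exact hAf γ h1 γ' h2 hne

/-- A good function is constant below all but countably many root edges. -/
theorem countable_bad {c : ℝ} {f : Node → ℝ} (hf : Node.Good c f) :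
    {γ : ℝ | ∃ s, Node.Below γ s ∧ f s ≠ f Node.root}.Countable := by
  have key : ∀ ε : ℝ, 0 < ε →
      {γ : ℝ | ∃ s, Node.Below γ s ∧ ε < |f s - f Node.root|}.Countable := by
    intro ε hε
    by_contra hc
    set B := {γ : ℝ | ∃ s, Node.Below γ s ∧ ε < |f s - f Node.root|} with hB
    have hch : ∀ γ : ℝ, ∃ s : Node, γ ∈ B → Node.Below γ s ∧ ε < |f s - f Node.root| := by
      intro γ
      by_cases h : γ ∈ B
      · obtain ⟨s, hs⟩ := h
        exact ⟨s, fun _ => hs⟩
      · exact ⟨Node.root, fun h' => absurd h' h⟩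
    choose s hs using hch
    have h1 : ∃ k : ℕ, {γ ∈ B | (s γ).supp.card ≤ k}.Infinite := by
      by_contra hh
      push Not at hh
      refine hc ((Set.countable_iUnion fun k => (hh k).countable).mono ?_)
      intro γ hγ
      exact Set.mem_iUnion.2 ⟨_, hγ, le_rfl⟩
    obtain ⟨k, hk⟩ := h1
    obtain ⟨m, hm⟩ := exists_nat_gt (max (c / ε) 0)
    have hm0 : (0 : ℝ) < m := (le_max_right _ _).trans_lt hm
    have hmc : c < m * ε := by
      have := (le_max_left _ _).trans_lt hm
      rwa [div_lt_iff₀ hε] at this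
    obtain ⟨A, hA, hAc, hAf⟩ := exists_free (fun γ => (s γ).supp) k (m ^ 2) _ hk
      fun γ hγ => hγ.2
    have hfree : Node.Free A s := ⟨fun γ hγ => (hs γ (hA hγ).1).1, hAf⟩
    have hsq : ∀ γ, ((if 0 ≤ f (s γ) - f Node.root then 1 else -1) / (m : ℝ)) ^ 2 =
        1 / (m : ℝ) ^ 2 := by
      intro γ; split_ifs <;> ring
    have h2 := hf.extra A s (fun γ => (if 0 ≤ f (s γ) - f Node.root then 1 else -1) / (m : ℝ))
      hfree (by
        simp only [hsq, Finset.sum_const, hAc, nsmul_eq_mul]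
        push_cast
        rw [mul_one_div_cancel (by positivity)])
    have h3 : ∑ γ ∈ A, ε / m ≤ ∑ γ ∈ A,
        (if 0 ≤ f (s γ) - f Node.root then 1 else -1) / (m : ℝ) * (f (s γ) - f Node.root) := by
      refine Finset.sum_le_sum fun γ hγ => ?_
      have := (hs γ (hA hγ).1).2
      rw [div_mul_eq_mul_div]
      refine div_le_div_of_nonneg_right ?_ hm0.le
      split_ifs with h
      · rw [abs_of_nonneg h] at this; linarith
      · rw [abs_of_neg (not_le.1 h)] at this; linarith
    rw [Finset.sum_const, hAc, nsmul_eq_mul] at h3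
    have h4 : ((m ^ 2 : ℕ) : ℝ) * (ε / m) = m * ε := by
      push_cast; field_simp
    have := le_abs_self (∑ γ ∈ A,
        (if 0 ≤ f (s γ) - f Node.root then 1 else -1) / (m : ℝ) * (f (s γ) - f Node.root))
    linarith
  refine (Set.countable_iUnion fun n : ℕ => key (1 / ((n : ℝ) + 1)) (by positivity)).mono ?_
  rintro γ ⟨s, hs, hne⟩
  obtain ⟨n, hn⟩ := exists_nat_one_div_lt (abs_pos.2 (sub_ne_zero.2 hne))
  exact Set.mem_iUnion.2 ⟨n, s, hs, hn⟩

end Pool.Agent.P.MP_3d49e4_an
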